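import Pool.Agent.Helper20.QP.St3

/-! # Project QD, part P: boundary values of an equivariant homeomorphism of the disc -/

set_option autoImplicit false

open Filter Topology Matrix Set Metric
open scoped ComplexConjugate

namespace Pool.Agent.Helper33.QP

open Pool.Agent.Helper35.PM Pool.Agent.Helper20.QD Pool.Agent.Helper20.QP

private theorem bmem_DD {z : ℂ} : z ∈ DD ↔ ‖z‖ ≤ 1 := by
  rw [mem_closedBall, dist_zero_right]

private theorem bmem_D {z : ℂ} : z ∈ D ↔ ‖z‖ < 1 := by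
  rw [mem_ball, dist_zero_right]

private theorem bmem_SS {z : ℂ} : z ∈ SS ↔ ‖z‖ = 1 := by
  rw [mem_sphere, dist_zero_right]

/-- the image of a point of a compact subset of the disc is close to the image of the centre -/
private theorem bsu_est (A : SL) (hA : IsSU A) (u : ℂ) (r : ℝ) (hr : r < 1) (hu : ‖u‖ ≤ r)
    (hden : den A u ≠ 0) :
    ‖mob A u - mob A 0‖ ≤ 2 * (1 - ‖mob A u‖ ^ 2) / (1 - r ^ 2) := by
  obtain ⟨h11, h10⟩ := hA
  have hr0 : 0 ≤ r := (norm_nonneg u).trans hu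
  have hdet : (A : Mat) 0 0 * (A : Mat) 1 1 - (A : Mat) 0 1 * (A : Mat) 1 0 = 1 := by
    have := A.2
    rwa [Matrix.det_fin_two] at this
  rw [h11, h10] at hdet
  rw [den, h11, h10] at hden
  rw [mob, mob, h11, h10]
  generalize (A : Mat) 0 0 = a at *
  generalize (A : Mat) 0 1 = b at *
  have hdet' : Complex.normSq a - Complex.normSq b = 1 := by
    rw [Complex.mul_conj, Complex.mul_conj] at hdet
    exact_mod_cast hdet
  have hb0 : 0 ≤ Complex.normSq b := Complex.normSq_nonneg b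
  have ha : a ≠ 0 := by
    rintro rfl
    rw [Complex.normSq_zero] at hdet'
    linarith
  have hca : conj a ≠ 0 := (map_ne_zero _).2 ha
  rw [mul_zero, zero_add, mul_zero, zero_add]
  have e1 : (a * u + b) / (conj b * u + conj a) - b / conj a =
      u / ((conj b * u + conj a) * conj a) := by
    rw [div_sub_div _ _ hden hca]
    congr 1
    linear_combination u * hdet
  have e2 : Complex.normSq (conj b * u + conj a) - Complex.normSq (a * u + b) =
      1 - Complex.normSq u := by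
    have : Complex.normSq (conj b * u + conj a) - Complex.normSq (a * u + b) =
        (Complex.normSq a - Complex.normSq b) * (1 - Complex.normSq u) := by
      simp only [Complex.normSq_apply, Complex.add_re, Complex.add_im, Complex.mul_re,
        Complex.mul_im, Complex.conj_re, Complex.conj_im]
      ring
    rw [this, hdet', one_mul]
  have hab : ‖b‖ ≤ ‖a‖ := by
    rw [← Complex.sq_norm, ← Complex.sq_norm] at hdet'
    nlinarith [norm_nonneg a, norm_nonneg b]
  have hd2 : ‖conj b * u + conj a‖ ≤ 2 * ‖a‖ := by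
    refine (norm_add_le _ _).trans ?_
    rw [norm_mul, RCLike.norm_conj, RCLike.norm_conj]
    have h1 : ‖u‖ ≤ 1 := hu.trans hr.le
    nlinarith [norm_nonneg b, norm_nonneg u]
  have hdpos : 0 < ‖conj b * u + conj a‖ := norm_pos_iff.2 hden
  have hapos : 0 < ‖a‖ := norm_pos_iff.2 ha
  rw [← Complex.sq_norm, ← Complex.sq_norm, ← Complex.sq_norm] at e2
  rw [e1, norm_div, norm_mul, RCLike.norm_conj, norm_div, div_pow]
  have hr2 : 0 < 1 - r ^ 2 := by nlinarith
  have e3 : 1 - ‖a * u + b‖ ^ 2 / ‖conj b * u + conj a‖ ^ 2 =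
      (1 - ‖u‖ ^ 2) / ‖conj b * u + conj a‖ ^ 2 := by
    rw [eq_div_iff (by positivity), sub_mul, div_mul_cancel₀ _ (by positivity)]
    linarith
  rw [e3]
  set d := ‖conj b * u + conj a‖ with hd
  have h1 : ‖u‖ / (d * ‖a‖) ≤ 2 / d ^ 2 := by
    rw [div_le_div_iff₀ (by positivity) (by positivity)]
    have h2 : ‖u‖ ≤ 1 := hu.trans hr.le
    have h3 : ‖u‖ * d ^ 2 ≤ 1 * d ^ 2 := mul_le_mul_of_nonneg_right h2 (by positivity)
    nlinarith
  refine h1.trans ?_
  rw [mul_div_assoc', div_div, div_le_div_iff₀ (by positivity) (by positivity)]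
  have h4 : 1 - r ^ 2 ≤ 1 - ‖u‖ ^ 2 := by nlinarith [norm_nonneg u]
  nlinarith [mul_le_mul_of_nonneg_right h4 (sq_nonneg d)]

/-- the image of a point of a compact subset of the disc is close to the boundary point which is
close to the orbit of the base point -/
private theorem best (A : SL) (hA : IsSU A) (u ζ : ℂ) (r : ℝ) (hr : r < 1) (hu : ‖u‖ ≤ r)
    (hζ : ‖ζ‖ = 1) (hden : den A u ≠ 0) :
    ‖mob A u - ζ‖ ≤ 6 / ((1 - r) * hs (A : Mat)) +
      2 * Real.sqrt (fr (density ((A : Mat) * (A : Mat)ᴴ)) (Qp ζ)) := by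
  obtain ⟨h11, h10⟩ := hA
  have hr0 : 0 ≤ r := (norm_nonneg u).trans hu
  have hdet : (A : Mat) 0 0 * (A : Mat) 1 1 - (A : Mat) 0 1 * (A : Mat) 1 0 = 1 := by
    have := A.2
    rwa [Matrix.det_fin_two] at this
  set a := (A : Mat) 0 0 with ha_def
  set b := (A : Mat) 0 1 with hb_def
  rw [h11, h10] at hdet
  have hdet' : ‖a‖ ^ 2 - ‖b‖ ^ 2 = 1 := by
    rw [Complex.mul_conj, Complex.mul_conj] at hdet
    have h : Complex.normSq a - Complex.normSq b = 1 := by exact_mod_cast hdet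
    rwa [← Complex.sq_norm, ← Complex.sq_norm] at h
  have hapos : 0 < ‖a‖ := by
    by_contra h
    have h0 : ‖a‖ = 0 := le_antisymm (not_lt.1 h) (norm_nonneg _)
    rw [h0] at hdet'
    nlinarith [sq_nonneg ‖b‖]
  have ha : a ≠ 0 := norm_pos_iff.1 hapos
  have hca : conj a ≠ 0 := (map_ne_zero _).2 ha
  set n : ℝ := ‖a‖ ^ 2 + ‖b‖ ^ 2 with hn
  have hn0 : 0 < n := by positivity
  have hhs : hs (A : Mat) = 2 * n := by
    simp only [hs, Fin.sum_univ_two]
    rw [h11, h10, RCLike.norm_conj, RCLike.norm_conj, hn]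
    ring
  have hab : ‖b‖ ≤ ‖a‖ := by nlinarith [norm_nonneg a, norm_nonneg b]
  -- the entry of the orbit
  have hO : density ((A : Mat) * (A : Mat)ᴴ) 0 1 = a * b / (n : ℂ) := by
    have e1 : ((A : Mat) * (A : Mat)ᴴ) 0 1 = 2 * (a * b) := by
      rw [Matrix.mul_apply, Fin.sum_univ_two, Matrix.conjTranspose_apply,
        Matrix.conjTranspose_apply, h11, h10]
      simp only [RCLike.star_def, Complex.conj_conj]
      ring
    have e2 : ((A : Mat) * (A : Mat)ᴴ).trace = 2 * (n : ℂ) := by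
      rw [Matrix.trace_fin_two, Matrix.mul_apply, Matrix.mul_apply, Fin.sum_univ_two,
        Fin.sum_univ_two, Matrix.conjTranspose_apply, Matrix.conjTranspose_apply,
        Matrix.conjTranspose_apply, Matrix.conjTranspose_apply, h11, h10]
      simp only [RCLike.star_def, Complex.conj_conj]
      rw [← ha_def, ← hb_def, hn]
      push_cast
      have f1 : a * conj a = (‖a‖ : ℂ) ^ 2 := by
        rw [Complex.mul_conj, Complex.normSq_eq_norm_sq]; push_cast; ring
      have f2 : b * conj b = (‖b‖ : ℂ) ^ 2 := by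
        rw [Complex.mul_conj, Complex.normSq_eq_norm_sq]; push_cast; ring
      linear_combination 2 * f1 + 2 * f2
    rw [density, Matrix.smul_apply, e1, e2, smul_eq_mul]
    have hnc : (n : ℂ) ≠ 0 := by exact_mod_cast hn0.ne'
    field_simp
  have hQ : Qp ζ 0 1 = ζ / 2 := by
    rw [Qp, Matrix.smul_apply, hζ]
    simp
    ring
  -- first estimate
  have hden' : conj b * u + conj a ≠ 0 := by
    rw [den, h11, h10] at hden; exact hden
  have hdge : (1 - r) * ‖a‖ ≤ ‖conj b * u + conj a‖ := by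
    have h1 : ‖conj a‖ ≤ ‖conj b * u + conj a‖ + ‖conj b * u‖ := by
      calc ‖conj a‖ = ‖(conj b * u + conj a) - conj b * u‖ := by congr 1; ring
        _ ≤ _ := norm_sub_le _ _
    rw [norm_mul, RCLike.norm_conj, RCLike.norm_conj] at h1
    have h2 : ‖b‖ * ‖u‖ ≤ ‖a‖ * r := mul_le_mul hab hu (norm_nonneg _) hapos.le
    linarith
  have hr1 : 0 < 1 - r := by linarith
  have E1 : ‖mob A u - b / conj a‖ ≤ 2 / ((1 - r) * n) := by
    have e1 : mob A u - b / conj a = u / ((conj b * u + conj a) * conj a) := by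
      rw [mob, h11, h10, div_sub_div _ _ hden' hca]
      congr 1
      linear_combination u * hdet
    rw [e1, norm_div, norm_mul, RCLike.norm_conj]
    have h1 : ‖u‖ ≤ 1 := hu.trans hr.le
    have h2 : (1 - r) * n ≤ 2 * (‖conj b * u + conj a‖ * ‖a‖) := by
      have h3 : (1 - r) * ‖a‖ * ‖a‖ ≤ ‖conj b * u + conj a‖ * ‖a‖ :=
        mul_le_mul_of_nonneg_right hdge hapos.le
      have h4 : n ≤ 2 * ‖a‖ ^ 2 := by
        have := pow_le_pow_left₀ (norm_nonneg b) hab 2
        linarith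
      nlinarith [mul_le_mul_of_nonneg_left h4 hr1.le]
    have h3 : 0 < ‖conj b * u + conj a‖ * ‖a‖ := mul_pos (norm_pos_iff.2 hden') hapos
    rw [div_le_div_iff₀ h3 (by positivity)]
    have h5 : ‖u‖ * ((1 - r) * n) ≤ 1 * ((1 - r) * n) :=
      mul_le_mul_of_nonneg_right h1 (by positivity)
    linarith
  have E2 : ‖b / conj a - 2 * (a * b / (n : ℂ))‖ ≤ 1 / n := by
    have hnc : (n : ℂ) ≠ 0 := by exact_mod_cast hn0.ne'
    have e1 : b / conj a - 2 * (a * b / (n : ℂ)) = -(b / conj a) / (n : ℂ) := by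
      have f1 : a * conj a = (‖a‖ : ℂ) ^ 2 := by
        rw [Complex.mul_conj, Complex.normSq_eq_norm_sq]; push_cast; ring
      have f3 : (n : ℂ) - 2 * (a * conj a) = -1 := by
        rw [f1, hn]
        have : ((‖a‖ ^ 2 - ‖b‖ ^ 2 : ℝ) : ℂ) = 1 := by rw [hdet']; simp
        push_cast at this ⊢
        linear_combination -this
      have f4 : b * (n : ℂ) - 2 * (a * b) * conj a = -b := by
        linear_combination b * f3
      have f5 : b / conj a - 2 * (a * b / (n : ℂ)) =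
          (b * (n : ℂ) - 2 * (a * b) * conj a) / (conj a * (n : ℂ)) := by
        field_simp
      rw [f5, f4, ← div_div, neg_div]
    rw [e1, norm_div, norm_neg, norm_div, RCLike.norm_conj, Complex.norm_real,
      Real.norm_of_nonneg hn0.le]
    exact div_le_div_of_nonneg_right ((div_le_one hapos).2 hab) hn0.le
  have E3 : ‖2 * (a * b / (n : ℂ)) - ζ‖ ≤
      2 * Real.sqrt (fr (density ((A : Mat) * (A : Mat)ᴴ)) (Qp ζ)) := by
    have e1 : 2 * (a * b / (n : ℂ)) - ζ =
        2 * ((density ((A : Mat) * (A : Mat)ᴴ)) 0 1 - (Qp ζ) 0 1) := by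
      rw [hO, hQ]; ring
    rw [e1, norm_mul]
    have h2 : ‖(2 : ℂ)‖ = 2 := by simp
    rw [h2]
    refine mul_le_mul_of_nonneg_left ?_ (by norm_num)
    apply Real.le_sqrt_of_sq_le
    rw [fr, hs]
    simp only [Fin.sum_univ_two, Matrix.sub_apply]
    have p1 := sq_nonneg ‖(density ((A : Mat) * (A : Mat)ᴴ)) 0 0 - (Qp ζ) 0 0‖
    have p2 := sq_nonneg ‖(density ((A : Mat) * (A : Mat)ᴴ)) 1 0 - (Qp ζ) 1 0‖
    have p3 := sq_nonneg ‖(density ((A : Mat) * (A : Mat)ᴴ)) 1 1 - (Qp ζ) 1 1‖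
    linarith
  have e : mob A u - ζ = (mob A u - b / conj a) + (b / conj a - 2 * (a * b / (n : ℂ))) +
      (2 * (a * b / (n : ℂ)) - ζ) := by ring
  rw [e]
  refine (norm_add₃_le).trans ?_
  have h6 : 2 / ((1 - r) * n) + 1 / n ≤ 6 / ((1 - r) * hs (A : Mat)) := by
    rw [hhs]
    have h7 : 1 / n ≤ 1 / ((1 - r) * n) :=
      one_div_le_one_div_of_le (by positivity) (by nlinarith)
    have h8 : 6 / ((1 - r) * (2 * n)) = 2 / ((1 - r) * n) + 1 / ((1 - r) * n) := by
      field_simp; norm_num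
    rw [h8]; linarith
  linarith

theorem hBDX (hSUB : StSUB) (_hMET : StMET) (hQDFCO : StQDFCO) (hQDFSU : StQDFSU)
    (hQDLQC : StQDLQC) : StBDX := by
  intro Γ _ σ τ f hσ hτ hbij hf heq
  obtain ⟨hCC, hLim, -⟩ := hQDFSU Γ τ hτ
  obtain ⟨-, -, hQne, -, -, -, hQinj, -⟩ := hQDLQC
  have hinf : Qinf ∉ limitSet τ := by
    rw [hLim]
    rintro ⟨z, -, hz⟩
    exact (hQne z).2 hz
  have hLam : Lam τ = SS := by
    ext z
    show Qp z ∈ limitSet τ ↔ z ∈ SS
    rw [hLim, hQinj.mem_set_image]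
  obtain ⟨b, hbc, hbb, hbe, hbd⟩ := hQDFCO Γ σ τ hσ hCC hinf
  rw [hLam] at hbb
  obtain ⟨r, hr1, hr⟩ := hσ.cocompact
  have hr0 : 0 ≤ r := by
    obtain ⟨γ, hγ⟩ := hr 0 (bmem_D.2 (by rw [norm_zero]; exact one_pos))
    exact (norm_nonneg _).trans hγ
  have hDsub : D ⊆ DD := ball_subset_closedBall
  have hsplit : ∀ z ∈ DD, z ∈ D ∨ z ∈ SS := by
    intro z hz
    rw [bmem_DD] at hz
    rcases hz.lt_or_eq with h | h
    · exact Or.inl (bmem_D.2 h)
    · exact Or.inr (bmem_SS.2 h)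
  have hrD : closedBall (0 : ℂ) r ⊆ D := closedBall_subset_ball hr1
  have hSU := fun γ => hSUB.1 (σ γ) (hσ.su γ)
  have hSUt := fun γ => hSUB.1 (τ γ) (hτ.su γ)
  set F : ℂ → ℂ := fun z => if ‖z‖ < 1 then f z else b z with hFdef
  have hFD : ∀ z ∈ D, F z = f z := fun z hz => if_pos (bmem_D.1 hz)
  have hFS : ∀ z ∈ SS, F z = b z := fun z hz => if_neg (by rw [bmem_SS.1 hz]; exact lt_irrefl 1)
  -- the compact set
  obtain ⟨r', hr'1, hr'⟩ : ∃ r' : ℝ, r' < 1 ∧ ∀ u, ‖u‖ ≤ r → ‖f u‖ ≤ r' := by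
    have hne : (closedBall (0 : ℂ) r).Nonempty := ⟨0, mem_closedBall_self hr0⟩
    obtain ⟨u0, hu0, hmax⟩ := (isCompact_closedBall (0 : ℂ) r).exists_isMaxOn hne
      ((hf.mono hrD).norm)
    refine ⟨‖f u0‖, bmem_D.1 (hbij.mapsTo (hrD hu0)), fun u hu => ?_⟩
    exact hmax (show u ∈ closedBall (0 : ℂ) r by rw [mem_closedBall, dist_zero_right]; exact hu)
  -- continuity
  have hcontS : ∀ ζ ∈ SS, ContinuousWithinAt F DD ζ := by
    intro ζ hζ
    have hbζ : b ζ ∈ SS := hbb.mapsTo hζ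
    rw [ContinuousWithinAt, hFS ζ hζ, Metric.tendsto_nhds]
    intro ε hε
    set e : ℝ := (ε / 8) ^ 2 with he
    have hepos : 0 < e := by positivity
    set X : ℝ := 12 / ((1 - r') * ε) with hX
    have hr'0 : 0 < 1 - r' := by linarith
    have hXpos : 0 < X := by positivity
    have hBad := hτ.discrete X
    set Bad : Set Γ := {γ : Γ | hs (τ γ) ≤ X} with hBadd
    obtain ⟨δ, hδ, hδ'⟩ := hbd ζ hζ e hepos
    have hN1 : ∀ᶠ z in 𝓝[DD] ζ, z ∉ ⋃ γ ∈ Bad, mob (σ γ) '' closedBall (0 : ℂ) r := by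
      have hcomp : IsCompact (⋃ γ ∈ Bad, mob (σ γ) '' closedBall (0 : ℂ) r) := by
        refine hBad.isCompact_biUnion fun γ _ => ?_
        refine (isCompact_closedBall (0 : ℂ) r).image_of_continuousOn ?_
        intro z hz
        have hd := (hSU γ).2.1 z (hDsub (hrD hz))
        exact (hSUB.2.2.2.2.1 (σ γ) z hd).continuousAt.continuousWithinAt
      have hnot : ζ ∉ ⋃ γ ∈ Bad, mob (σ γ) '' closedBall (0 : ℂ) r := by
        intro h
        obtain ⟨γ, -, z, hz, hzζ⟩ := mem_iUnion₂.1 h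
        have h1 : mob (σ γ) z ∈ D := (hSU γ).2.2.1.mapsTo (hrD hz)
        rw [hzζ, bmem_D, bmem_SS.1 hζ] at h1
        exact lt_irrefl _ h1
      exact mem_nhdsWithin_of_mem_nhds (hcomp.isClosed.isOpen_compl.mem_nhds hnot)
    have hN2 : ∀ᶠ z in 𝓝[DD] ζ, 2 * (1 - ‖z‖ ^ 2) / (1 - r ^ 2) + ‖z - ζ‖ < δ := by
      have hc : Continuous (fun z : ℂ => 2 * (1 - ‖z‖ ^ 2) / (1 - r ^ 2) + ‖z - ζ‖) := by
        fun_prop
      have h1 : Tendsto (fun z : ℂ => 2 * (1 - ‖z‖ ^ 2) / (1 - r ^ 2) + ‖z - ζ‖) (𝓝 ζ)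
          (𝓝 (2 * (1 - ‖ζ‖ ^ 2) / (1 - r ^ 2) + ‖ζ - ζ‖)) := hc.tendsto ζ
      rw [bmem_SS.1 hζ] at h1
      have h2 : 2 * (1 - (1 : ℝ) ^ 2) / (1 - r ^ 2) + ‖ζ - ζ‖ = 0 := by simp
      rw [h2] at h1
      exact mem_nhdsWithin_of_mem_nhds (h1.eventually_lt_const hδ)
    have hN3 : ∀ᶠ z in 𝓝[DD] ζ, z ∈ SS → dist (b z) (b ζ) < ε := by
      have h1 : ∀ᶠ z in 𝓝[SS] ζ, dist (b z) (b ζ) < ε := Metric.tendsto_nhds.1 (hbc ζ hζ) ε hε
      rw [eventually_nhdsWithin_iff] at h1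
      exact mem_nhdsWithin_of_mem_nhds h1
    filter_upwards [hN1, hN2, hN3, self_mem_nhdsWithin] with z hz1 hz2 hz3 hzDD
    rcases hsplit z hzDD with hzD | hzS
    · rw [hFD z hzD]
      obtain ⟨γ', hγ'⟩ := hr z hzD
      have hzu : mob (σ γ'⁻¹) (mob (σ γ') z) = z := by
        rw [map_inv]
        exact (hSU γ').2.2.2.2 z (hDsub hzD)
      set u := mob (σ γ') z with hu
      set γ := γ'⁻¹ with hγ
      have hur : u ∈ closedBall (0 : ℂ) r := by
        rw [mem_closedBall, dist_zero_right]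
        exact hγ'
      have huD : u ∈ D := hrD hur
      have hgood : X < hs (τ γ) := by
        by_contra h
        apply hz1
        exact mem_iUnion₂.2 ⟨γ, not_lt.1 h, u, hur, hzu⟩
      have h1 : ‖mob (σ γ) 0 - ζ‖ < δ := by
        have h2 := bsu_est (σ γ) (hσ.su γ) u r hr1 hγ' ((hSU γ).2.1 u (hDsub huD))
        rw [hzu] at h2
        have h3 : mob (σ γ) 0 - ζ = -(z - mob (σ γ) 0) + (z - ζ) := by ring
        rw [h3]
        refine (norm_add_le _ _).trans_lt ?_
        rw [norm_neg]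
        linarith
      have h2 := hδ' γ h1
      have hfu : f u ∈ D := hbij.mapsTo huD
      have h3 := best (τ γ) (hτ.su γ) (f u) (b ζ) r' hr'1 (hr' u hγ') (bmem_SS.1 hbζ)
        ((hSUt γ).2.1 (f u) (hDsub hfu))
      have h4 : f z = mob (τ γ) (f u) := by
        rw [← heq γ u huD, hzu]
      rw [dist_eq_norm, h4]
      refine h3.trans_lt ?_
      have h5 : Real.sqrt (fr (density (((τ γ : SL) : Mat) * ((τ γ : SL) : Mat)ᴴ)) (Qp (b ζ))) ≤
          ε / 8 := by
        have h6 : fr (density (((τ γ : SL) : Mat) * ((τ γ : SL) : Mat)ᴴ)) (Qp (b ζ)) ≤ e := h2.le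
        calc _ ≤ Real.sqrt e := Real.sqrt_le_sqrt h6
          _ = ε / 8 := Real.sqrt_sq (by positivity)
      have h7 : 6 / ((1 - r') * hs ((τ γ : SL) : Mat)) ≤ ε / 2 := by
        have hp : 0 < hs ((τ γ : SL) : Mat) := hXpos.trans hgood
        rw [div_le_div_iff₀ (by positivity) (by norm_num)]
        have h8 : 12 < hs ((τ γ : SL) : Mat) * ((1 - r') * ε) := by
          rw [hX, div_lt_iff₀ (by positivity)] at hgood
          exact hgood
        nlinarith
      linarith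
    · rw [hFS z hzS]
      exact hz3 hzS
  have hcont : ContinuousOn F DD := by
    intro z hz
    rcases hsplit z hz with hzD | hzS
    · have h1 : ContinuousAt f z := (hf z hzD).continuousAt (isOpen_ball.mem_nhds hzD)
      have h2 : F =ᶠ[𝓝 z] f := by
        filter_upwards [isOpen_ball.mem_nhds hzD] with w hw
        exact hFD w hw
      exact (h1.congr h2.symm).continuousWithinAt
    · exact hcontS z hzS
  refine ⟨F, hFD, hcont, hbb.congr fun z hz => (hFS z hz).symm, ?_⟩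
  intro γ z hz
  rcases hsplit z hz with hzD | hzS
  · rw [hFD z hzD, hFD _ ((hSU γ).2.2.1.mapsTo hzD)]
    exact heq γ z hzD
  · rw [hFS z hzS, hFS _ ((hSU γ).2.2.2.1.mapsTo hzS)]
    exact hbe γ z hzS

end Pool.Agent.Helper33.QP
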